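import Pool.Agent.X325.SylowFin

/-!
# Transitive Sylow subgroups of finitary permutation groups and normal subgroups

Let `G` be a transitive subgroup of `FSym(Ω)` and `S` a transitive Sylow `p`-subgroup of `G`. Then for
every normal subgroup `N` of `G` the intersection `S ∩ N` is a Sylow `p`-subgroup of `N`, and `SN/N`
is a Sylow `p`-subgroup of `G/N`. So both questions have a positive answer.

The proof. A transitive `p`-group `S` of finitary permutations is totally imprimitive: every finite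
set is contained in a finite block `Δ` of `S` (otherwise there is a finite block which is maximal among
the proper blocks; its stabiliser is a maximal subgroup of the locally finite `p`-group `S`, so it is
normal, and then `Ω` is a union of finitely many translates of the block). Let `X` be a subgroup of `G`
all of whose elements have their supports in `Δ`, and which is normalised by the stabiliser `S_Δ` of
the block `Δ` in `S`. Then `S ∩ X` is a Sylow `p`-subgroup of `X`: let `U` be the group of the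
restrictions to `Δ` of the elements of `S_Δ` (extended by the identity), `P` a Sylow `p`-subgroup of
the finite group `XU` which contains `U`, and `P₀ = P ∩ X`, a Sylow `p`-subgroup of `X` which contains
`S ∩ X` and is normalised by `S_Δ`. The conjugates of `P₀` under `S` live on the translates of `Δ`, so
they generate a `p`-subgroup `R` of `G` which is normalised by `S`. Hence `SR` is a `p`-subgroup of `G`,
so `R ≤ S` and `S ∩ X = P₀`. This is applied to the groups of the elements of `N`, and of the preimage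
of a `p`-subgroup of `G/N` which contains `SN/N`, with supports in `Δ`.
-/

set_option autoImplicit false

open Equiv Pool.Agent.X325.SF

namespace Pool.Agent.Results.MP_055c61_al.SylowIntersections

universe u

variable {Ω : Type u}

theorem inter {p : ℕ} (hp : p.Prime) {G : Subgroup (Perm Ω)} (hG : G ≤ FSym Ω)
    (S : Sylow p G) (hS : Transitive ((S : Subgroup G).map G.subtype)) (N : Subgroup G)
    (hN : N.Normal) : ∃ P : Sylow p N, (P : Subgroup N) = (S : Subgroup G).subgroupOf N := by
  refine ⟨⟨(S : Subgroup G).subgroupOf N, S.2.comap_subtype, fun {Q} hQ hle => ?_⟩, rfl⟩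
  apply le_antisymm ?_ hle
  intro x hx
  obtain ⟨Δ, -, hxΔ, hΔ⟩ := main hp hG S hS (x := (x : G))
  have h1 := hΔ (N ⊓ (supp Δ).subgroupOf G) inf_le_right (by
    intro s _ hsΔ y hy
    refine ⟨hN.conj_mem _ hy.1 s, ?_⟩
    change ((s * y * s⁻¹ : G) : Perm Ω) ∈ supp Δ
    intro z hz
    have h2 : (s : Perm Ω)⁻¹ z ∉ Δ := by
      intro h
      apply hz
      rw [← hsΔ]
      exact ⟨_, h, papply_inv _ _⟩
    change (s : Perm Ω) ((y : Perm Ω) ((s : Perm Ω)⁻¹ z)) = z
    have h3 : (y : Perm Ω) ((s : Perm Ω)⁻¹ z) = (s : Perm Ω)⁻¹ z := hy.2 _ h2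
    rw [h3, papply_inv]) (Q.map N.subtype ⊓ (supp Δ).subgroupOf G)
    (inf_le_inf_right _ (by rintro _ ⟨y, _, rfl⟩; exact y.2))
    ((hQ.map N.subtype).to_le inf_le_left)
    (by
      rintro y ⟨hyS, hyN, hyΔ⟩
      exact ⟨⟨⟨y, hyN⟩, hle (by rw [Subgroup.mem_subgroupOf]; exact hyS), rfl⟩, hyΔ⟩)
  rw [Subgroup.mem_subgroupOf]
  exact h1 ⟨⟨x, hx, rfl⟩, hxΔ⟩

theorem quot {p : ℕ} (hp : p.Prime) {G : Subgroup (Perm Ω)} (hG : G ≤ FSym Ω)
    (S : Sylow p G) (hS : Transitive ((S : Subgroup G).map G.subtype)) (N : Subgroup G)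
    [hN : N.Normal] :
    ∃ P : Sylow p (G ⧸ N), (P : Subgroup (G ⧸ N)) = (S : Subgroup G).map (QuotientGroup.mk' N) := by
  have : Fact p.Prime := ⟨hp⟩
  refine ⟨⟨(S : Subgroup G).map (QuotientGroup.mk' N), S.2.map _, fun {Q} hQ hle => ?_⟩, rfl⟩
  apply le_antisymm ?_ hle
  intro y hy
  obtain ⟨g, rfl⟩ := QuotientGroup.mk'_surjective N y
  obtain ⟨Δ, hΔf, hgΔ, hΔ⟩ := main hp hG S hS (x := g)
  -- the elements of the preimage of `Q` with support in `Δ`
  let Y : Subgroup G := Q.comap (QuotientGroup.mk' N) ⊓ (supp Δ).subgroupOf G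
  have hSQ : (S : Subgroup G) ≤ Q.comap (QuotientGroup.mk' N) := fun s hs => hle ⟨s, hs, rfl⟩
  have hY := hΔ Y inf_le_right (by
    intro s hs hsΔ y hy
    refine ⟨?_, ?_⟩
    · exact Subgroup.mul_mem _ (Subgroup.mul_mem _ (hSQ hs) hy.1) (Subgroup.inv_mem _ (hSQ hs))
    · change ((s * y * s⁻¹ : G) : Perm Ω) ∈ supp Δ
      intro z hz
      have h2 : (s : Perm Ω)⁻¹ z ∉ Δ := by
        intro h
        apply hz
        rw [← hsΔ]
        exact ⟨_, h, papply_inv _ _⟩
      change (s : Perm Ω) ((y : Perm Ω) ((s : Perm Ω)⁻¹ z)) = z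
      have h3 : (y : Perm Ω) ((s : Perm Ω)⁻¹ z) = (s : Perm Ω)⁻¹ z := hy.2 _ h2
      rw [h3, papply_inv])
  have hYfin : Finite Y := by
    have := finite_supp hΔf
    refine Finite.of_injective (β := supp Δ) (fun y : Y => ⟨((y : G) : Perm Ω), y.2.2⟩) ?_
    intro z w hzw
    rw [Subtype.mk.injEq] at hzw
    exact Subtype.ext (Subtype.ext hzw)
  -- `S ∩ Y` is a Sylow subgroup of `Y`
  let P : Sylow p Y := ⟨(S : Subgroup G).subgroupOf Y, S.2.comap_subtype, fun {Q'} hQ' hle' => by
    apply le_antisymm ?_ hle'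
    intro x hx
    have h1 := hY (Q'.map Y.subtype) (by rintro _ ⟨y, _, rfl⟩; exact y.2) (hQ'.map _)
      (by
        rintro z ⟨hzS, hzY⟩
        exact ⟨⟨z, hzY⟩, hle' (by rw [Subgroup.mem_subgroupOf]; exact hzS), rfl⟩)
    rw [Subgroup.mem_subgroupOf]
    exact h1 ⟨x, hx, rfl⟩⟩
  let f : Y →* G ⧸ N := (QuotientGroup.mk' N).comp Y.subtype
  have hf : IsPGroup p f.range := by
    refine hQ.to_le ?_
    rintro _ ⟨z, rfl⟩
    exact z.2.1
  have htop : (P.mapSurjective f.rangeRestrict_surjective : Subgroup f.range) = ⊤ :=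
    ((P.mapSurjective f.rangeRestrict_surjective).is_maximal' (Q := ⊤)
      (hf.to_subgroup ⊤) le_top).symm
  have hgY : g ∈ Y := ⟨hy, hgΔ⟩
  have h3 : f.rangeRestrict ⟨g, hgY⟩ ∈
      (P.mapSurjective f.rangeRestrict_surjective : Subgroup f.range) := htop ▸ Subgroup.mem_top _
  rw [Sylow.coe_mapSurjective] at h3
  obtain ⟨z, hz, hzg⟩ := h3
  exact ⟨z, hz, congrArg Subtype.val hzg⟩

/-- **Both questions have a positive answer.** -/
theorem result : ∀ (p : ℕ) (_ : p.Prime) (Ω : Type u) (G : Subgroup (Perm Ω)) (_ : G ≤ FSym Ω)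
    (_ : Transitive G) (N : Subgroup G) (_ : N.Normal) (S : Sylow p G)
    (_ : Transitive ((S : Subgroup G).map G.subtype)),
    (∃ P : Sylow p N, (P : Subgroup N) = (S : Subgroup G).subgroupOf N) ∧
    ∃ P : Sylow p (G ⧸ N), (P : Subgroup (G ⧸ N)) = (S : Subgroup G).map (QuotientGroup.mk' N) :=
  fun _ hp _ _ hG _ N hN S hS => ⟨inter hp hG S hS N hN, quot hp hG S hS N⟩

end Pool.Agent.Results.MP_055c61_al.SylowIntersections
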